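import Pool.Agent.Helper57.KE.St
import Pool.Agent.Helper57.KR.K6

/-!
# Project KE, module BIG: the two-sided kernel by averaging over cuts
-/

set_option autoImplicit false

open scoped BigOperators
open Finset

namespace Pool.Agent.Helper7.KE

open Pool.Agent.Helper65.RG Pool.Agent.Helper57.KR Pool.Agent.Helper57.KE

lemma kb_sum {ι κ : Type*} [Fintype ι] (P : Finset κ) {K : κ → ι → ι → ℝ} {C : ℝ}
    (h : ∀ m ∈ P, KB (K m) C) : KB (fun i j => ∑ m ∈ P, K m i j) ((P.card : ℝ) * C) := by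
  classical
  induction P using Finset.induction_on with
  | empty =>
    intro x y hx hy
    simp
  | insert a s ha ih =>
    have h1 := h a (mem_insert_self a s)
    have h2 := ih (fun m hm => h m (mem_insert_of_mem hm))
    have h3 := h1.add h2
    refine h3.mono (fun i j => ?_) ?_
    · rw [sum_insert ha]
    · rw [card_insert_of_notMem ha]
      push_cast
      linarith

lemma lin_geom {δ : ℝ} (hδ : 0 < δ) (K : ℕ) :
    ∑ k ∈ range K, (k : ℝ) * ((1 + δ)⁻¹) ^ (k + 1) ≤ δ⁻¹ * δ⁻¹ := by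
  set q : ℝ := (1 + δ)⁻¹ with hq
  have hq0 : 0 < q := by positivity
  have hq1 : q ≤ 1 := inv_le_one_of_one_le₀ (by linarith)
  have e : 1 - q = δ * q := by
    rw [hq]
    field_simp
    ring
  rcases K with _ | K
  · rw [range_zero, sum_empty]
    positivity
  rw [sum_range_succ']
  have e1 : ∑ k ∈ range K, ((k + 1 : ℕ) : ℝ) * q ^ (k + 1 + 1) =
      q * ∑ k ∈ range K, q ^ (k + 1) * ((k : ℝ) + 1) := by
    rw [mul_sum]
    refine sum_congr rfl fun k _ => ?_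
    push_cast
    ring
  rw [e1]
  have h3 := arith_geom hq0.le hq1 K
  rw [e] at h3
  set X := ∑ k ∈ range K, q ^ (k + 1) * ((k : ℝ) + 1) with hX
  have h4 : δ ^ 2 * (q * X) ≤ 1 := by
    have : q * (δ ^ 2 * (q * X)) ≤ q * 1 := by
      calc q * (δ ^ 2 * (q * X)) = (δ * q) ^ 2 * X := by ring
        _ ≤ q := h3
        _ = q * 1 := by ring
    exact le_of_mul_le_mul_left this hq0
  have e2 : δ⁻¹ * δ⁻¹ = 1 / δ ^ 2 := by
    field_simp
  rw [e2, le_div_iff₀ (by positivity)]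
  push_cast
  linarith

lemma kb_lin {δ : ℝ} (hδ : 0 < δ) (N : ℕ) :
    KB (fun i j : Fin (N + 1) => (((i : ℕ) - (j : ℕ) : ℕ) : ℝ) * k1 δ i j) (δ⁻¹ * δ⁻¹) := by
  have hd : 0 ≤ δ⁻¹ * δ⁻¹ := by positivity
  have hkey : ∀ i j : ℕ, (((i - j : ℕ) : ℝ)) * k1 δ i j =
      if j ≤ i then (fun k : ℕ => (k : ℝ) * ((1 + δ)⁻¹) ^ (k + 1)) (i - j) else 0 := by
    intro i j
    unfold k1
    split_ifs
    · rfl
    · ring
  have := KB.schur (ι := Fin (N + 1))
    (K := fun i j => (((i : ℕ) - (j : ℕ) : ℕ) : ℝ) * k1 δ i j) (h := fun _ => 1)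
    (A := δ⁻¹ * δ⁻¹) (B := δ⁻¹ * δ⁻¹) (fun _ => one_pos)
    (fun i j => by have := k1_nonneg hδ (i : ℕ) j; positivity) hd hd ?_ ?_
  · rwa [Real.mul_self_sqrt hd] at this
  · intro i
    simp only [mul_one, hkey]
    rw [Fin.sum_univ_eq_sum_range (fun j => if j ≤ (i : ℕ) then
      ((((i : ℕ) - j : ℕ) : ℝ)) * ((1 + δ)⁻¹) ^ ((i : ℕ) - j + 1) else 0) (N + 1)]
    exact sum_row (g := fun k => (k : ℝ) * ((1 + δ)⁻¹) ^ (k + 1)) (lin_geom hδ)
      (by have := i.isLt; omega)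
  · intro j
    simp only [mul_one, hkey]
    rw [Fin.sum_univ_eq_sum_range (fun i => if (j : ℕ) ≤ i then
      (((i - (j : ℕ) : ℕ) : ℝ)) * ((1 + δ)⁻¹) ^ (i - (j : ℕ) + 1) else 0) (N + 1)]
    exact sum_col (g := fun k => (k : ℝ) * ((1 + δ)⁻¹) ^ (k + 1)) (lin_geom hδ)
      (by have := j.isLt; omega)

lemma pow_lb {δ : ℝ} (hδ : 0 < δ) (n : ℕ) :
    1 + (n : ℝ) * δ + (n : ℝ) * ((n : ℝ) - 1) / 2 * δ ^ 2 ≤ (1 + δ) ^ n := by
  induction n with
  | zero => simp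
  | succ n ih =>
    rw [pow_succ]
    have h1 : (1 + (n : ℝ) * δ + (n : ℝ) * ((n : ℝ) - 1) / 2 * δ ^ 2) * (1 + δ) ≤
        (1 + δ) ^ n * (1 + δ) := mul_le_mul_of_nonneg_right ih (by linarith)
    refine le_trans ?_ h1
    have h2 : 0 ≤ (n : ℝ) * ((n : ℝ) - 1) := by
      rcases n with _ | n
      · simp
      · push_cast
        have : (0 : ℝ) ≤ n := Nat.cast_nonneg n
        nlinarith
    have h3 : 0 ≤ (n : ℝ) * ((n : ℝ) - 1) / 2 * δ ^ 3 := by positivity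
    push_cast
    linarith [h3, show (1 + (n : ℝ) * δ + (n : ℝ) * ((n : ℝ) - 1) / 2 * δ ^ 2) * (1 + δ) =
      1 + ((n : ℝ) + 1) * δ + ((n : ℝ) + 1) * ((n : ℝ) + 1 - 1) / 2 * δ ^ 2 +
        (n : ℝ) * ((n : ℝ) - 1) / 2 * δ ^ 3 by ring]

lemma decay2 {δ : ℝ} (hδ : 0 < δ) (hδ1 : δ ≤ 1) {n : ℕ} (hn : 1 ≤ n) :
    ((1 + δ)⁻¹) ^ n ≤ 2 / ((n : ℝ) * δ) ^ 2 := by
  have hn' : (1 : ℝ) ≤ n := by exact_mod_cast hn
  have h1 := pow_lb hδ n
  have h2 : ((n : ℝ) * δ) ^ 2 / 2 ≤ (1 + δ) ^ n := by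
    refine le_trans ?_ h1
    have h3 : (n : ℝ) * δ ^ 2 ≤ (n : ℝ) * δ := by
      apply mul_le_mul_of_nonneg_left _ (by linarith)
      nlinarith
    have h4 : 0 ≤ (n : ℝ) * δ := by positivity
    nlinarith
  have hp : 0 < ((n : ℝ) * δ) ^ 2 := by positivity
  rw [inv_pow, inv_eq_one_div, div_le_div_iff₀ (by positivity) hp]
  linarith

theorem hBIG : StBIG := by
  intro φ Φ B C δ M N hφ hle hconst hM hN hδ hδ1 hC hB hA hB2
  have hΦ : 0 < Φ := by rw [← hconst M le_rfl]; exact hφ M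
  have hR : KB (fun i j : Fin (N + 1) => k1 δ i j * (φ (N - j) / φ (N - i))) (C * δ⁻¹) := by
    have h2 := (hA.transpose).reindex (Fin.revPerm)
    simp only [Fin.revPerm_apply] at h2
    refine h2.mono ?_ le_rfl
    intro i j
    have hi := i.isLt
    have hj := j.isLt
    simp only [Fin.val_rev]
    have e1 : N + 1 - ((i : ℕ) + 1) = N - i := by omega
    have e2 : N + 1 - ((j : ℕ) + 1) = N - j := by omega
    rw [e1, e2]
    unfold k1
    by_cases h : (j : ℕ) ≤ i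
    · rw [if_pos h, if_pos (by omega)]
      have e3 : N - (j : ℕ) - (N - i) = i - j := by omega
      rw [e3]
    · rw [if_neg h, if_neg (by omega), zero_mul]
  set P : Finset ℕ := Ioc (N / 4) (3 * N / 4) with hP
  have hmemP : ∀ m, m ∈ P ↔ N < 4 * m ∧ 4 * m ≤ 3 * N := by
    intro m
    rw [hP, mem_Ioc]
    omega
  have hcard : N + 1 ≤ 4 * P.card := by
    rw [hP, Nat.card_Ioc]
    omega
  have hcardR : (N : ℝ) + 1 ≤ 4 * (P.card : ℝ) := by exact_mod_cast hcard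
  have hPpos : (0 : ℝ) < P.card := by
    have : 0 < P.card := by omega
    exact_mod_cast this
  have hNp : (0 : ℝ) < (N : ℝ) + 1 := by positivity
  have hblk : ∀ m ∈ P, KB (fun i j : Fin (N + 1) =>
      if (i : ℕ) < m ∧ (j : ℕ) < m then k1 δ i j * (φ i / φ j)
      else if ¬ (i : ℕ) < m ∧ ¬ (j : ℕ) < m then k1 δ i j * (φ (N - j) / φ (N - i)) else 0)
      (C * δ⁻¹) :=
    fun m _ => kb_block hA hR (by positivity) (fun i : Fin (N + 1) => (i : ℕ) < m)
  have hav := ((kb_sum P hblk).smul (c := (P.card : ℝ)⁻¹) (by positivity)).mono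
    (fun i j => le_rfl) (D := C * δ⁻¹)
    (by rw [← mul_assoc, inv_mul_cancel₀ hPpos.ne', one_mul])
  have hlin := (kb_lin hδ N).smul (c := 4 / ((N : ℝ) + 1)) (by positivity)
  set D : ℝ := 128 / (((N : ℝ) + 1) * δ) ^ 2 * Φ ^ 2 with hD
  have hDp : 0 ≤ D := by positivity
  have hCC : KB (fun i j : Fin (N + 1) => D * ((φ (N - i))⁻¹ * (φ j)⁻¹))
      (128 * B / (δ * ((N : ℝ) + 1)) * δ⁻¹) := by
    have h1 := (KB.rankOne (K := fun i j : Fin (N + 1) => (φ (N - i))⁻¹ * (φ j)⁻¹)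
      (u := fun i : Fin (N + 1) => (φ (N - i))⁻¹) (v := fun j : Fin (N + 1) => (φ j)⁻¹)
      (fun i j => le_rfl)).smul hDp
    refine h1.mono (fun i j => le_rfl) ?_
    have e1 : ∑ i : Fin (N + 1), ((φ (N - i))⁻¹) ^ 2 = ∑ j ∈ range (N + 1), (φ j ^ 2)⁻¹ := by
      rw [← Equiv.sum_comp Fin.revPerm,
        ← Fin.sum_univ_eq_sum_range (fun j => (φ j ^ 2)⁻¹) (N + 1)]
      refine sum_congr rfl fun i _ => ?_
      rw [Fin.revPerm_apply, Fin.val_rev]
      have : N - (N + 1 - ((i : ℕ) + 1)) = i := by have := i.isLt; omega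
      rw [this, inv_pow]
    have e2 : ∑ i : Fin (N + 1), ((φ i)⁻¹) ^ 2 = ∑ j ∈ range (N + 1), (φ j ^ 2)⁻¹ := by
      rw [← Fin.sum_univ_eq_sum_range (fun j => (φ j ^ 2)⁻¹) (N + 1)]
      refine sum_congr rfl fun i _ => ?_
      rw [inv_pow]
    rw [e1, e2, Real.mul_self_sqrt (sum_nonneg fun i _ => by positivity)]
    calc D * ∑ j ∈ range (N + 1), (φ j ^ 2)⁻¹
        = 128 / (((N : ℝ) + 1) * δ) ^ 2 * (Φ ^ 2 * ∑ j ∈ range (N + 1), (φ j ^ 2)⁻¹) := by
          rw [hD]; ring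
      _ ≤ 128 / (((N : ℝ) + 1) * δ) ^ 2 * (B * ((N : ℝ) + 1)) := by gcongr
      _ = 128 * B / (δ * ((N : ℝ) + 1)) * δ⁻¹ := by field_simp
  have hS := (hav.add hlin).add hCC
  refine hS.mono ?_ (le_of_eq (by field_simp; ring))
  intro i j
  have p1 := hφ i
  have p2 := hφ j
  have p3 := hφ (N - i)
  have p4 := hφ (N - j)
  have hk := k1_nonneg hδ (i : ℕ) j
  have hi := i.isLt
  have hj := j.isLt
  have e0 : (φ i / φ (N - i)) / (φ j / φ (N - j)) = (φ i / φ j) * (φ (N - j) / φ (N - i)) := by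
    field_simp
  rw [e0]
  have t3 : 0 ≤ D * ((φ (N - i))⁻¹ * (φ j)⁻¹) := by positivity
  have t4 : 0 ≤ 4 / ((N : ℝ) + 1) * ((((i : ℕ) - (j : ℕ) : ℕ) : ℝ) * k1 δ i j) := by positivity
  have t5 : 0 ≤ k1 δ i j * (φ i / φ j) := by positivity
  have t6 : 0 ≤ k1 δ i j * (φ (N - j) / φ (N - i)) := by positivity
  by_cases hij : (j : ℕ) ≤ i
  swap
  · have hk0 : k1 δ i j = 0 := by
      unfold k1
      rw [if_neg hij]
    rw [hk0, zero_mul]
    have t7 : 0 ≤ (P.card : ℝ)⁻¹ * ∑ m ∈ P, (if (i : ℕ) < m ∧ (j : ℕ) < m then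
        (0 : ℝ) * (φ i / φ j)
        else if ¬ (i : ℕ) < m ∧ ¬ (j : ℕ) < m then 0 * (φ (N - j) / φ (N - i)) else 0) := by
      simp
    rw [hk0] at t4
    linarith
  set F : ℝ := k1 δ i j * ((φ i / φ j) * (φ (N - j) / φ (N - i))) with hF
  have hF0 : 0 ≤ F := by positivity
  have hterm : ∀ m ∈ P, (if (i : ℕ) < m ∧ (j : ℕ) < m then k1 δ i j * (φ i / φ j)
      else if ¬ (i : ℕ) < m ∧ ¬ (j : ℕ) < m then k1 δ i j * (φ (N - j) / φ (N - i)) else 0) =
      F - (if (j : ℕ) < m ∧ m ≤ (i : ℕ) then F else 0) := by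
    intro m hm
    rw [hmemP] at hm
    by_cases h1 : (i : ℕ) < m
    · rw [if_pos ⟨h1, by omega⟩, if_neg (by omega), sub_zero, hF, hconst (N - i) (by omega),
        hconst (N - j) (by omega), div_self hΦ.ne', mul_one]
    · by_cases h2 : (j : ℕ) < m
      · rw [if_neg (by omega), if_neg (by omega), if_pos (by omega), sub_self]
      · rw [if_neg (by omega), if_pos ⟨h1, h2⟩, if_neg (by omega), sub_zero, hF,
          hconst i (by omega), hconst j (by omega), div_self hΦ.ne', one_mul]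
  have hsumeq : (P.card : ℝ)⁻¹ * ∑ m ∈ P, (if (i : ℕ) < m ∧ (j : ℕ) < m then
      k1 δ i j * (φ i / φ j)
      else if ¬ (i : ℕ) < m ∧ ¬ (j : ℕ) < m then k1 δ i j * (φ (N - j) / φ (N - i)) else 0) =
      F - ((P.filter (fun m => (j : ℕ) < m ∧ m ≤ (i : ℕ))).card : ℝ) / (P.card : ℝ) * F := by
    rw [sum_congr rfl hterm, sum_sub_distrib, sum_const, nsmul_eq_mul, ← sum_filter, sum_const,
      nsmul_eq_mul]
    field_simp
  rw [hsumeq]
  set S : Finset ℕ := P.filter (fun m => (j : ℕ) < m ∧ m ≤ (i : ℕ)) with hSdef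
  rcases S.eq_empty_or_nonempty with hS0 | ⟨m, hm⟩
  · rw [hS0, card_empty, Nat.cast_zero, zero_div, zero_mul, sub_zero]
    linarith
  rw [hSdef, mem_filter, hmemP] at hm
  obtain ⟨⟨hm1, hm2⟩, hm3, hm4⟩ := hm
  by_cases hcase : M ≤ (j : ℕ) ∧ (i : ℕ) + M ≤ N
  · have hFk : F = k1 δ i j := by
      rw [hF, hconst i (by omega), hconst j (by omega), hconst (N - i) (by omega),
        hconst (N - j) (by omega), div_self hΦ.ne', mul_one, mul_one]
    have hSc : S.card ≤ (i : ℕ) - j := by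
      calc S.card ≤ (Ioc (j : ℕ) i).card := by
            apply card_le_card
            intro a ha
            rw [hSdef, mem_filter] at ha
            rw [mem_Ioc]
            exact ha.2
        _ = (i : ℕ) - j := Nat.card_Ioc _ _
    have hScR : (S.card : ℝ) ≤ (((i : ℕ) - (j : ℕ) : ℕ) : ℝ) := by exact_mod_cast hSc
    have h5 : (S.card : ℝ) / (P.card : ℝ) ≤ 4 / ((N : ℝ) + 1) * (((i : ℕ) - (j : ℕ) : ℕ) : ℝ) := by
      rw [div_mul_eq_mul_div, div_le_div_iff₀ hPpos hNp]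
      calc (S.card : ℝ) * ((N : ℝ) + 1) ≤ (((i : ℕ) - (j : ℕ) : ℕ) : ℝ) * (4 * (P.card : ℝ)) := by
            gcongr
        _ = _ := by ring
    have h6 := mul_le_mul_of_nonneg_right h5 hk
    rw [hFk]
    linarith
  · have h8 : N + 1 ≤ 8 * ((i : ℕ) - j + 1) := by omega
    have h8R : ((N : ℝ) + 1) ≤ 8 * ((((i : ℕ) - j + 1 : ℕ)) : ℝ) := by exact_mod_cast h8
    have hk2 : k1 δ i j ≤ 128 / (((N : ℝ) + 1) * δ) ^ 2 := by
      unfold k1
      rw [if_pos hij]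
      refine (decay2 hδ hδ1 (by omega)).trans ?_
      rw [div_le_div_iff₀ (by positivity) (by positivity)]
      have h9 : (((N : ℝ) + 1) * δ) ^ 2 ≤ (8 * ((((i : ℕ) - j + 1 : ℕ)) : ℝ) * δ) ^ 2 := by
        gcongr
      nlinarith
    have hr : (φ i / φ j) * (φ (N - j) / φ (N - i)) ≤ Φ ^ 2 * ((φ (N - i))⁻¹ * (φ j)⁻¹) := by
      calc (φ i / φ j) * (φ (N - j) / φ (N - i)) ≤ (Φ / φ j) * (Φ / φ (N - i)) := by
            have a1 := hle i
            have a2 := hle (N - j)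
            gcongr
        _ = _ := by
            rw [div_eq_mul_inv, div_eq_mul_inv]
            ring
    have h10 : F ≤ D * ((φ (N - i))⁻¹ * (φ j)⁻¹) := by
      calc F ≤ 128 / (((N : ℝ) + 1) * δ) ^ 2 * (Φ ^ 2 * ((φ (N - i))⁻¹ * (φ j)⁻¹)) := by
            rw [hF]
            exact mul_le_mul hk2 hr (by positivity) (by positivity)
        _ = _ := by rw [hD]; ring
    have h11 : (S.card : ℝ) / (P.card : ℝ) * F ≤ F := by
      have : (S.card : ℝ) / (P.card : ℝ) ≤ 1 := by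
        rw [div_le_one hPpos]
        have := card_filter_le P (fun m => (j : ℕ) < m ∧ m ≤ (i : ℕ))
        exact_mod_cast this
      calc (S.card : ℝ) / (P.card : ℝ) * F ≤ 1 * F := mul_le_mul_of_nonneg_right this hF0
        _ = F := one_mul F
    linarith

end Pool.Agent.Helper7.KE
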